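import Pool.Agent.Y316.EV.Stm

set_option autoImplicit false

/-!
# `G = K ⋊ Γ` is a locally compact second countable group and `haarG` is its Haar measure
-/

namespace Pool.Agent.Y781.EV

open MeasureTheory Set Filter Topology Pool.Agent.Y316.PC Pool.Agent.Y316.EV
open scoped ENNReal NNReal

section

variable {Γ : Type} [Group Γ] [TopologicalSpace Γ] [DiscreteTopology Γ]

theorem cont_sh : Continuous (fun z : Γ × KK Γ => sh z.1 z.2) := by
  rw [continuous_prod_of_discrete_left]
  exact fun γ => continuous_sh γ

theorem topGroup : IsTopologicalGroup (GG Γ) where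
  continuous_mul := by
    have h1 : Continuous (fun z : GG Γ × GG Γ => z.1.1) :=
      (continuous_fst (X := KK Γ) (Y := Γ)).comp continuous_fst
    have h2 : Continuous (fun z : GG Γ × GG Γ => z.1.2) :=
      (continuous_snd (X := KK Γ) (Y := Γ)).comp continuous_fst
    have h3 : Continuous (fun z : GG Γ × GG Γ => z.2.1) :=
      (continuous_fst (X := KK Γ) (Y := Γ)).comp continuous_snd
    have h4 : Continuous (fun z : GG Γ × GG Γ => z.2.2) :=
      (continuous_snd (X := KK Γ) (Y := Γ)).comp continuous_snd
    have h5 : Continuous (fun z : Γ × Γ => z.1 * z.2) := continuous_of_discreteTopology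
    exact (h1.add (cont_sh.comp (h2.prodMk h3))).prodMk (h5.comp (h2.prodMk h4))
  continuous_inv := by
    have h1 : Continuous (fun z : GG Γ => z.1) := continuous_fst (X := KK Γ) (Y := Γ)
    have h2 : Continuous (fun z : GG Γ => z.2) := continuous_snd (X := KK Γ) (Y := Γ)
    have h3 : Continuous (fun z : Γ => z⁻¹) := continuous_of_discreteTopology
    exact (cont_sh.comp ((h3.comp h2).prodMk h1.neg)).prodMk (h3.comp h2)

theorem noncompact [Infinite Γ] : NoncompactSpace (GG Γ) := by
  refine ⟨fun h => ?_⟩
  have h2 : IsCompact ((fun z : GG Γ => z.2) '' univ) :=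
    h.image (continuous_snd (X := KK Γ) (Y := Γ))
  have h3 : (fun z : GG Γ => z.2) '' univ = univ := by
    rw [image_univ, range_eq_univ]
    exact fun γ => ⟨((0 : KK Γ), γ), rfl⟩
  rw [h3] at h2
  exact infinite_univ h2.finite_of_discrete

variable [Countable Γ] [MeasurableSpace Γ] [DiscreteMeasurableSpace Γ]

theorem mp_left (g : GG Γ) : MeasurePreserving (fun h : GG Γ => g * h) (haarG Γ) (haarG Γ) := by
  have h1 : MeasurePreserving (fun k : KK Γ => g.1 + sh g.2 k) (haarK Γ) (haarK Γ) :=
    (measurePreserving_add_left (haarK Γ) g.1).comp (measurePreserving_sh g.2)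
  have h2 : MeasurePreserving (fun h : Γ => g.2 * h) (Measure.count : Measure Γ) Measure.count :=
    measurePreserving_mul_left _ _
  exact h1.prod h2

theorem mp_right (g : GG Γ) : MeasurePreserving (fun h : GG Γ => h * g) (haarG Γ) (haarG Γ) := by
  have h2 : MeasurePreserving (fun h : Γ => h * g.2) (Measure.count : Measure Γ) Measure.count :=
    measurePreserving_mul_right _ _
  have h3 : Measurable (Function.uncurry (fun (h : Γ) (k : KK Γ) => k + sh h g.1)) := by
    refine Continuous.measurable ?_
    exact continuous_snd.add (cont_sh.comp (continuous_fst.prodMk continuous_const))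
  have h4 : MeasurePreserving (fun p : Γ × KK Γ => (p.1 * g.2, p.2 + sh p.1 g.1))
      ((Measure.count : Measure Γ).prod (haarK Γ)) ((Measure.count : Measure Γ).prod (haarK Γ)) := by
    refine h2.skew_product (g := fun (h : Γ) (k : KK Γ) => k + sh h g.1) h3 ?_
    exact Eventually.of_forall fun h => (measurePreserving_add_right (haarK Γ) (sh h g.1)).map_eq
  have h5 : MeasurePreserving (Prod.swap : KK Γ × Γ → Γ × KK Γ)
      ((haarK Γ).prod (Measure.count : Measure Γ)) ((Measure.count : Measure Γ).prod (haarK Γ)) :=
    Measure.measurePreserving_swap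
  have h6 : MeasurePreserving (Prod.swap : Γ × KK Γ → KK Γ × Γ)
      ((Measure.count : Measure Γ).prod (haarK Γ)) ((haarK Γ).prod (Measure.count : Measure Γ)) :=
    Measure.measurePreserving_swap
  exact h6.comp (h4.comp h5)

omit [Group Γ] in
theorem fin_comp : IsFiniteMeasureOnCompacts (haarG Γ) := by
  have h1 : IsFiniteMeasureOnCompacts (Measure.count : Measure Γ) :=
    ⟨fun K hK => Measure.count_apply_lt_top.2 hK.finite_of_discrete⟩
  exact inferInstanceAs (IsFiniteMeasureOnCompacts
    ((haarK Γ).prod (Measure.count : Measure Γ)))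

omit [Group Γ] in
theorem open_pos : (haarG Γ).IsOpenPosMeasure := by
  have h1 : (Measure.count : Measure Γ).IsOpenPosMeasure :=
    ⟨fun U _ hU => Measure.count_ne_zero hU⟩
  exact inferInstanceAs (((haarK Γ).prod (Measure.count : Measure Γ)).IsOpenPosMeasure)

end

theorem top : S_TOP := by
  intro Γ _ _ _ _ _ _
  have hT := topGroup (Γ := Γ)
  refine ⟨hT, inferInstanceAs (T2Space (KK Γ × Γ)), inferInstanceAs (LocallyCompactSpace (KK Γ × Γ)),
    inferInstanceAs (SecondCountableTopology (KK Γ × Γ)), inferInstanceAs (BorelSpace (KK Γ × Γ)),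
    fun h => noncompact, ?_, ?_⟩
  · exact
      { lt_top_of_isCompact := fin_comp.lt_top_of_isCompact
        map_mul_left_eq_self := fun g => (mp_left g).map_eq
        open_pos := open_pos.open_pos }
  · exact ⟨fun g => (mp_right g).map_eq⟩

end Pool.Agent.Y781.EV

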